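import Mathlib

namespace Pool.Agent.Results.MP_5f2357_gt.Counterexample

/-- The specialization order: `x ≤ y` iff `x ∈ cl {y}`. -/
def SpecLE {Z : Type} [TopologicalSpace Z] (x y : Z) : Prop := x ∈ closure ({y} : Set Z)

/-- `↑x` for the specialization order. -/
def up {Z : Type} [TopologicalSpace Z] (x : Z) : Set Z := {y | SpecLE x y}

/-- Strong `d`-spaces. -/
def StrongD (Z : Type) [TopologicalSpace Z] : Prop :=
  T0Space Z ∧ ∀ (D : Set Z) (x : Z) (U : Set Z), D.Nonempty → DirectedOn SpecLE D → IsOpen U →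
    (⋂ d ∈ D, up d) ∩ up x ⊆ U → ∃ d ∈ D, up d ∩ up x ⊆ U

/-- The poset `⊥ < a, b < c₀, c₁, …`. -/
inductive Y : Type
  | bot | a | b | c (k : ℕ)
  deriving DecidableEq

def Y.le : Y → Y → Prop
  | .bot, _ => True
  | .a, .a => True
  | .b, .b => True
  | .a, .c _ => True
  | .b, .c _ => True
  | .c k, .c l => k = l
  | _, _ => False

def Y.rank : Y → ℕ
  | .bot => 0
  | .a => 1
  | .b => 1
  | .c _ => 2

theorem Y.le_refl (x : Y) : Y.le x x := by cases x <;> simp [Y.le]

theorem Y.le_trans {x y z : Y} (h1 : Y.le x y) (h2 : Y.le y z) : Y.le x z := by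
  cases x <;> cases y <;> cases z <;> simp_all [Y.le]

theorem Y.eq_of_rank {x y : Y} (h1 : Y.le x y) (h2 : y.rank ≤ x.rank) : x = y := by
  cases x <;> cases y <;> simp_all [Y.le, Y.rank]

theorem Y.rank_le {x y : Y} (h1 : Y.le x y) : x.rank ≤ y.rank := by
  cases x <;> cases y <;> simp_all [Y.le, Y.rank]

/-- The Alexandrov topology: open sets are the upper sets. -/
instance : TopologicalSpace Y where
  IsOpen U := ∀ x y, x ∈ U → Y.le x y → y ∈ U
  isOpen_univ := fun _ _ _ _ => trivial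
  isOpen_inter := fun _ _ hs ht x y hx h => ⟨hs x y hx.1 h, ht x y hx.2 h⟩
  isOpen_sUnion := fun _ hs x y ⟨t, ht, hx⟩ h => ⟨t, ht, hs t ht x y hx h⟩

theorem isOpen_up (x : Y) : IsOpen {y | Y.le x y} := fun _ _ h1 h2 => Y.le_trans h1 h2

theorem spec_iff (x y : Y) : SpecLE x y ↔ Y.le x y := by
  unfold SpecLE
  rw [mem_closure_iff]
  constructor
  · intro h
    obtain ⟨z, hz, rfl⟩ := h _ (isOpen_up x) (Y.le_refl x)
    exact hz
  · intro h U hU hx
    exact ⟨y, hU x y hx h, rfl⟩

theorem strongD_Y : StrongD Y := by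
  refine ⟨⟨fun x y h => ?_⟩, fun D x U hD hdir _ hsub => ?_⟩
  · have h1 : Y.le x y := (spec_iff x y).1 h.specializes'.mem_closure
    have h2 : Y.le y x := (spec_iff y x).1 h.specializes.mem_closure
    exact Y.eq_of_rank h1 (Y.rank_le h2)
  · have hb : BddAbove (Y.rank '' D) := ⟨2, by
      rintro _ ⟨y, -, rfl⟩
      cases y <;> simp [Y.rank]⟩
    obtain ⟨d, hd, hdm⟩ := Nat.sSup_mem (hD.image Y.rank) hb
    refine ⟨d, hd, fun z hz => hsub ⟨?_, hz.2⟩⟩
    simp only [Set.mem_iInter]
    intro e he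
    obtain ⟨w, hw, h1, h2⟩ := hdir d hd e he
    have : d = w := Y.eq_of_rank ((spec_iff _ _).1 h1) (hdm ▸ le_csSup hb ⟨w, hw, rfl⟩)
    subst this
    exact (spec_iff _ _).2 (Y.le_trans ((spec_iff _ _).1 h2) ((spec_iff _ _).1 hz.1))

abbrev F : Type := {f : ℕ → Y // Continuous f}

theorem spec_F (f g : F) : SpecLE f g ↔ ∀ i, Y.le (f.1 i) (g.1 i) := by
  unfold SpecLE
  rw [← specializes_iff_mem_closure, subtype_specializes_iff, specializes_pi]
  refine forall_congr' fun i => ?_
  rw [specializes_iff_mem_closure]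
  exact spec_iff _ _

theorem isOpen_coord (y : Y) (i : ℕ) : IsOpen {f : F | Y.le y (f.1 i)} := by
  have hc : Continuous fun f : F => f.1 i :=
    (continuous_apply (A := fun _ : ℕ => Y) i).comp continuous_subtype_val
  exact (isOpen_up y).preimage hc

def dd (n : ℕ) : F := ⟨fun i => if i ≤ n then Y.a else Y.bot, continuous_of_discreteTopology⟩

def xx : F := ⟨fun i => if i = 0 then Y.b else Y.bot, continuous_of_discreteTopology⟩

/-- The space of continuous maps from a `T₀` space to a strong `d`-space, with the topology of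
pointwise convergence, need not be a strong `d`-space. -/
theorem result : ¬ ∀ (X Z : Type) [TopologicalSpace X] [T0Space X] [TopologicalSpace Z],
    StrongD Z → StrongD {f : X → Z // Continuous f} := by
  intro h
  obtain ⟨-, h⟩ := h ℕ Y strongD_Y
  have hmono : ∀ m n, m ≤ n → SpecLE (dd m) (dd n) := by
    intro m n hmn
    rw [spec_F]
    intro i
    simp only [dd]
    split_ifs with h1 h2
    · trivial
    · omega
    · trivial
    · trivial
  obtain ⟨_, ⟨n, rfl⟩, hn⟩ := h (Set.range dd) xx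
    (⋃ k : ℕ, {f : F | Y.le (Y.c k) (f.1 0)} ∩ {f : F | Y.le Y.a (f.1 (k + 1))})
    ⟨_, 0, rfl⟩
    (by
      rintro _ ⟨m, rfl⟩ _ ⟨n, rfl⟩
      exact ⟨_, ⟨max m n, rfl⟩, hmono _ _ (le_max_left _ _), hmono _ _ (le_max_right _ _)⟩)
    (isOpen_iUnion fun k => IsOpen.inter
      (isOpen_coord _ _) (isOpen_coord _ _))
    (by
      rintro f ⟨h1, h2⟩
      simp only [Set.mem_iInter] at h1
      have ha : ∀ i, Y.le Y.a (f.1 i) := by
        intro i
        have := (spec_F _ _).1 (h1 _ ⟨i, rfl⟩) i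
        simpa [dd] using this
      have hb : Y.le Y.b (f.1 0) := by
        have := (spec_F _ _).1 h2 0
        simpa [xx] using this
      have h0 := ha 0
      obtain ⟨k, hk⟩ : ∃ k, f.1 0 = Y.c k := by
        revert hb h0
        cases f.1 0 <;> simp [Y.le]
      exact Set.mem_iUnion.2 ⟨k, by simp [hk, Y.le], ha _⟩)
  have hy := hn (a := (⟨fun i => if i = 0 then Y.c n else if i ≤ n then Y.a else Y.bot,
    continuous_of_discreteTopology⟩ : F)) ⟨(spec_F _ _).2 (by
      intro i
      simp only [dd]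
      split_ifs <;> trivial), (spec_F _ _).2 (by
      intro i
      simp only [xx]
      split_ifs <;> trivial)⟩
  obtain ⟨k, h1, h2⟩ := Set.mem_iUnion.1 hy
  simp [Y.le] at h1 h2
  subst h1
  simp at h2

end Pool.Agent.Results.MP_5f2357_gt.Counterexample
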